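import Pool.Agent.helper64.PC.SpecK

/-!
# pc:NUM
-/

set_option autoImplicit false

namespace Pool.Agent.PC

open Finset Polynomial Pool.Agent.PB

theorem NUM_one (E : ℕ) : 2 ^ E + 1 ≤ 2 ^ (E + 1) := by
  have h : 1 ≤ 2 ^ E := Nat.one_le_two_pow
  rw [pow_succ]
  omega

theorem NUM_exp (e r T : ℕ) (he : 6 ≤ e) (hr : 1 ≤ r) (hT : 32 * e * r ≤ T) :
    T * (4 * e + 2 * (6 * e * (r + 1) + 1)) + T ≤ T * T := by
  have h1 : 4 * e + 2 * (6 * e * (r + 1) + 1) + 1 ≤ T := by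
    have h2 : e ≤ e * r := Nat.le_mul_of_pos_right e hr
    have h3 : 4 * e + 2 * (6 * e * (r + 1) + 1) + 1 = 12 * (e * r) + 16 * e + 3 := by ring
    have h4 : 32 * e * r = 32 * (e * r) := by ring
    omega
  calc T * (4 * e + 2 * (6 * e * (r + 1) + 1)) + T = T * (4 * e + 2 * (6 * e * (r + 1) + 1) + 1) := by ring
    _ ≤ T * T := Nat.mul_le_mul_left T h1

theorem NUM : NUM_stmt := by
  intro e r s he hr hT h
  rcases h with h | h
  · refine le_trans ?_ h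
    exact Nat.pow_le_pow_left (by norm_num) _
  · obtain ⟨T, hTe⟩ : ∃ T, T = 2 ^ e := ⟨_, rfl⟩
    rw [← hTe] at h hT ⊢
    have hTT : 2 ^ (2 * e) = T * T := by rw [hTe, ← pow_add]; congr 1; omega
    rw [hTT] at h
    have h1 : (2 ^ (4 * e)) ^ T * (2 ^ (6 * e * (r + 1)) + 1) ^ (2 * T) ≤
        2 ^ (T * (4 * e + 2 * (6 * e * (r + 1) + 1))) := by
      calc (2 ^ (4 * e)) ^ T * (2 ^ (6 * e * (r + 1)) + 1) ^ (2 * T)
          ≤ (2 ^ (4 * e)) ^ T * (2 ^ (6 * e * (r + 1) + 1)) ^ (2 * T) :=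
            Nat.mul_le_mul_left _ (Nat.pow_le_pow_left (NUM_one _) _)
        _ = 2 ^ (T * (4 * e + 2 * (6 * e * (r + 1) + 1))) := by
            rw [← pow_mul, ← pow_mul, ← pow_add]
            congr 1
            ring
    have h2 : 2 ^ (T * T) ≤ s * 2 ^ (T * (4 * e + 2 * (6 * e * (r + 1) + 1))) :=
      le_trans h (Nat.mul_le_mul_left _ h1)
    have h3 : 2 ^ T * 2 ^ (T * (4 * e + 2 * (6 * e * (r + 1) + 1))) ≤ 2 ^ (T * T) := by
      rw [← pow_add]
      refine Nat.pow_le_pow_right (by norm_num) ?_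
      rw [Nat.add_comm]
      exact NUM_exp e r T he hr hT
    exact Nat.le_of_mul_le_mul_right (le_trans h3 h2) (pow_pos (by norm_num) _)

end Pool.Agent.PC
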